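import Mathlib
import Pool.Agent.R104.Quiddity

set_option autoImplicit false

/-!
# MP_8835a9_co: the sizes of the irreducible solutions of `(E_N)` are not bounded by `N + K`

The definitions (`T`, `M`, `IsSolution`, `osum`, `Equivalent`, `Reducible`, `IsIrreducible`) are in
`Pool.Agent.R104.Quiddity`.

For every `m` with `m ≡ 1 (mod 30)` and `N = 5 m` the tuple `(2, m + 2, 2, m + 2, ..., 2, m + 2)` of
size `6 m` is an irreducible solution of `(E_N)`. Modulo `5` it is the irreducible solution
`(2, 3, 2, 3, 2, 3)`, repeated, and modulo `m` it is the irreducible solution `(2, ..., 2)`, repeated.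
-/

namespace Pool.Agent.Results.MP_8835a9_co.NoUniformBound

open Pool.Agent.R104.Quiddity Matrix

/-- the alternating tuple `(x, y, x, y, ...)` of size `n` -/
def alt {R : Type*} (x y : R) : ℕ → List R
  | 0 => []
  | n + 1 => x :: alt y x n

section alt

variable {R : Type*}

theorem alt_length (n : ℕ) : ∀ x y : R, (alt x y n).length = n := by
  induction n with
  | zero => intro x y; rfl
  | succ n ih => intro x y; rw [alt, List.length_cons, ih]

theorem alt_map {S : Type*} (f : R → S) (n : ℕ) :
    ∀ x y : R, (alt x y n).map f = alt (f x) (f y) n := by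
  induction n with
  | zero => intro x y; rfl
  | succ n ih => intro x y; rw [alt, List.map_cons, ih, alt]

theorem alt_add (n : ℕ) (k : ℕ) : ∀ x y : R, alt x y (2 * k + n) = alt x y (2 * k) ++ alt x y n := by
  induction k with
  | zero => intro x y; simp [alt]
  | succ k ih =>
    intro x y
    rw [show 2 * (k + 1) + n = (2 * k + n) + 1 + 1 by ring, show 2 * (k + 1) = 2 * k + 1 + 1 by ring]
    rw [alt, alt, ih, alt, alt, List.cons_append, List.cons_append]

theorem alt_odd (k : ℕ) (x y : R) : alt x y (2 * k + 1) = alt x y (2 * k) ++ [x] := by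
  rw [alt_add]; rfl

theorem alt_even (k : ℕ) (x y : R) : alt x y (2 * k + 2) = alt x y (2 * k + 1) ++ [y] := by
  rw [alt_add, alt_odd, List.append_assoc]; rfl

theorem alt_rotate_one (k : ℕ) (x y : R) : (alt x y (2 * k)).rotate 1 = alt y x (2 * k) := by
  rcases Nat.eq_zero_or_pos k with rfl | hk
  · simp [alt]
  · obtain ⟨k, rfl⟩ : ∃ j, k = j + 1 := ⟨k - 1, by omega⟩
    rw [show 2 * (k + 1) = 2 * k + 1 + 1 by ring, alt, List.rotate_cons_succ, List.rotate_zero,
      show 2 * k + 1 + 1 = 2 * k + 2 by ring, alt_even]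

theorem alt_rotate (k : ℕ) (n : ℕ) : ∀ x y : R, (alt x y (2 * k)).rotate n = alt x y (2 * k) ∨
    (alt x y (2 * k)).rotate n = alt y x (2 * k) := by
  induction n with
  | zero => intro x y; left; rw [List.rotate_zero]
  | succ n ih =>
    intro x y
    rw [show n + 1 = 1 + n by ring, ← List.rotate_rotate, alt_rotate_one]
    exact (ih y x).symm

theorem alt_reverse (k : ℕ) : ∀ x y : R, (alt x y (2 * k)).reverse = alt y x (2 * k) := by
  induction k with
  | zero => intro x y; rfl
  | succ k ih =>
    intro x y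
    rw [show 2 * (k + 1) = 2 * k + 2 by ring, alt_even k y x, alt_odd k y x, ← ih x y]
    rw [show 2 * k + 2 = 2 * k + 1 + 1 by ring, alt, alt, List.reverse_cons, List.reverse_cons]

theorem alt_prefix_eq {l₁ : List R} : ∀ {x y : R} {n : ℕ} {l₂ : List R}, alt x y n = l₁ ++ l₂ →
    l₁ = alt x y l₁.length := by
  induction l₁ with
  | nil => intro x y n l₂ _; rfl
  | cons a l₁ ih =>
    intro x y n l₂ h
    cases n with
    | zero => simp [alt] at h
    | succ n =>
      rw [alt, List.cons_append, List.cons.injEq] at h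
      rw [List.length_cons, alt, ← h.1, ← ih h.2]

theorem alt_equivalent {k : ℕ} {x y : R} {l : List R} (h : Equivalent (alt x y (2 * k)) l) :
    l = alt x y (2 * k) ∨ l = alt y x (2 * k) := by
  rcases h with ⟨n, h⟩ | ⟨n, h⟩
  · rcases alt_rotate k n x y with h1 | h1
    · left; rw [← h, h1]
    · right; rw [← h, h1]
  · rw [alt_reverse] at h
    rcases alt_rotate k n y x with h1 | h1
    · right; rw [← h, h1]
    · left; rw [← h, h1]

end alt

theorem M_map {R S : Type*} [CommRing R] [CommRing S] (f : R →+* S) (l : List R) :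
    M (l.map f) = (M l).map f := by
  induction l with
  | nil =>
    simp only [List.map_nil, M]
    exact (Matrix.map_one f (map_zero f) (map_one f)).symm
  | cons a l ih =>
    rw [List.map_cons, M, M, ih, Matrix.map_mul]
    congr 1
    ext i j
    fin_cases i <;> fin_cases j <;> simp [T]

/-- modulo `m` -/
theorem M_two {R : Type*} [CommRing R] (n : ℕ) :
    M (alt (2 : R) 2 n) = !![(n : R) + 1, -n; n, 1 - n] := by
  induction n with
  | zero =>
    ext i j
    fin_cases i <;> fin_cases j <;> simp [alt, M]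
  | succ n ih =>
    rw [alt, M, ih]
    ext i j
    fin_cases i <;> fin_cases j <;> simp [T, Matrix.mul_apply, Fin.sum_univ_two] <;> ring

theorem M5_23 : M (alt (2 : ZMod 5) 3 6) = 1 := by decide

theorem M5_32 : M (alt (3 : ZMod 5) 2 6) = 1 := by decide

theorem M5_period {x y : ZMod 5} (h : M (alt x y 6) = 1) (q : ℕ) : M (alt x y (6 * q)) = 1 := by
  induction q with
  | zero => rfl
  | succ q ih =>
    rw [show 6 * (q + 1) = 2 * 3 + 6 * q by ring, alt_add, M_append, ih]
    simpa using h

theorem M5_mod {x y : ZMod 5} (h : M (alt x y 6) = 1) (n : ℕ) :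
    M (alt x y n) = M (alt x y (n % 6)) := by
  have h1 : n = 2 * (3 * (n / 6)) + n % 6 := by omega
  conv_lhs => rw [h1]
  rw [alt_add, M_append, show 2 * (3 * (n / 6)) = 6 * (n / 6) by ring, M5_period h, mul_one]

theorem corner_plus {n : ℕ} (h : M (alt (2 : ZMod 5) 3 n) 0 0 = 1 ∨ M (alt (3 : ZMod 5) 2 n) 0 0 = 1) :
    n % 6 = 0 := by
  rw [M5_mod M5_23, M5_mod M5_32] at h
  have hn : n % 6 < 6 := Nat.mod_lt _ (by norm_num)
  generalize n % 6 = r at h hn
  revert h
  interval_cases r <;> decide

theorem corner_minus {n : ℕ}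
    (h : M (alt (2 : ZMod 5) 3 n) 0 0 = -1 ∨ M (alt (3 : ZMod 5) 2 n) 0 0 = -1) :
    n % 6 = 4 := by
  rw [M5_mod M5_23, M5_mod M5_32] at h
  have hn : n % 6 < 6 := Nat.mod_lt _ (by norm_num)
  generalize n % 6 = r at h hn
  revert h
  interval_cases r <;> decide

theorem eq_zero_of {m : ℕ} (hm : Nat.Coprime 5 m) [NeZero (5 * m)] {e : ZMod (5 * m)}
    (h5 : ZMod.castHom (dvd_mul_right 5 m) (ZMod 5) e = 0)
    (h1 : ZMod.castHom (dvd_mul_left m 5) (ZMod m) e = 0) : e = 0 := by
  rw [← ZMod.natCast_zmod_val e, map_natCast, ZMod.natCast_eq_zero_iff] at h5 h1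
  rw [← ZMod.natCast_zmod_val e, ZMod.natCast_eq_zero_iff]
  exact hm.mul_dvd_of_dvd_of_dvd h5 h1

/-- **The family.** For `m ≡ 1 (mod 30)` and `N = 5 m` the tuple `(2, m + 2, ..., 2, m + 2)` of size
`6 m` is an irreducible solution of `(E_N)`. -/
theorem family {m : ℕ} (hm : m % 30 = 1) :
    IsIrreducible (alt (2 : ZMod (5 * m)) ((m : ZMod (5 * m)) + 2) (6 * m)) := by
  have hm0 : 0 < m := by omega
  have : NeZero (5 * m) := ⟨by omega⟩
  have hc5 : Nat.Coprime 5 m := by
    rw [Nat.Prime.coprime_iff_not_dvd (by norm_num)]; omega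
  have hc6 : Nat.Coprime 6 m := by
    have h2 : Nat.Coprime 2 m := by rw [Nat.Prime.coprime_iff_not_dvd (by norm_num)]; omega
    have h3 : Nat.Coprime 3 m := by rw [Nat.Prime.coprime_iff_not_dvd (by norm_num)]; omega
    exact Nat.Coprime.mul_left h2 h3
  set f5 := ZMod.castHom (dvd_mul_right 5 m) (ZMod 5) with hf5
  set f1 := ZMod.castHom (dvd_mul_left m 5) (ZMod m) with hf1
  have x5 : f5 2 = 2 := map_ofNat f5 2
  have y5 : f5 ((m : ZMod (5 * m)) + 2) = 3 := by
    rw [map_add, map_natCast, x5]
    have : (m : ZMod 5) = ((1 : ℕ) : ZMod 5) := by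
      rw [ZMod.natCast_eq_natCast_iff']; omega
    rw [this]
    decide
  have x1 : f1 2 = 2 := map_ofNat f1 2
  have y1 : f1 ((m : ZMod (5 * m)) + 2) = 2 := by
    rw [map_add, map_natCast, x1, ZMod.natCast_self, zero_add]
  -- the products modulo `5` and modulo `m`
  have m5 : ∀ (n : ℕ) (i j : Fin 2), f5 (M (alt (2 : ZMod (5 * m)) ((m : ZMod (5 * m)) + 2) n) i j) =
      M (alt (2 : ZMod 5) 3 n) i j := by
    intro n i j
    have h := M_map f5 (alt (2 : ZMod (5 * m)) ((m : ZMod (5 * m)) + 2) n)
    rw [alt_map, x5, y5] at h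
    rw [h]; rfl
  have m5' : ∀ (n : ℕ) (i j : Fin 2), f5 (M (alt ((m : ZMod (5 * m)) + 2) (2 : ZMod (5 * m)) n) i j) =
      M (alt (3 : ZMod 5) 2 n) i j := by
    intro n i j
    have h := M_map f5 (alt ((m : ZMod (5 * m)) + 2) (2 : ZMod (5 * m)) n)
    rw [alt_map, x5, y5] at h
    rw [h]; rfl
  have m1 : ∀ (n : ℕ) (i j : Fin 2), f1 (M (alt (2 : ZMod (5 * m)) ((m : ZMod (5 * m)) + 2) n) i j) =
      M (alt (2 : ZMod m) 2 n) i j := by
    intro n i j
    have h := M_map f1 (alt (2 : ZMod (5 * m)) ((m : ZMod (5 * m)) + 2) n)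
    rw [alt_map, x1, y1] at h
    rw [h]; rfl
  have m1' : ∀ (n : ℕ) (i j : Fin 2), f1 (M (alt ((m : ZMod (5 * m)) + 2) (2 : ZMod (5 * m)) n) i j) =
      M (alt (2 : ZMod m) 2 n) i j := by
    intro n i j
    have h := M_map f1 (alt ((m : ZMod (5 * m)) + 2) (2 : ZMod (5 * m)) n)
    rw [alt_map, x1, y1] at h
    rw [h]; rfl
  refine ⟨⟨?_, Or.inl ?_⟩, by rw [alt_length]; omega, ?_⟩
  · intro h
    have := congrArg List.length h
    rw [alt_length] at this
    simp at this
    omega
  · -- it is a solution
    rw [← sub_eq_zero]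
    ext i j
    apply eq_zero_of hc5
    · rw [← hf5, Matrix.sub_apply, map_sub, m5, M5_period M5_23]
      fin_cases i <;> fin_cases j <;> simp
    · rw [← hf1, Matrix.sub_apply, map_sub, m1, M_two]
      fin_cases i <;> fin_cases j <;> simp
  · -- it is not reducible
    rintro ⟨a, b, ha, ha3, hb, hb3, hab⟩
    obtain ⟨x0, u, y0, rfl, hu, hul⟩ := exists_rep ha3
    obtain ⟨z0, v, w0, rfl, hv, hvl⟩ := exists_rep hb3
    have hul1 : 1 ≤ u.length := List.length_pos_iff.2 hu
    have hvl1 : 1 ≤ v.length := List.length_pos_iff.2 hv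
    rw [osum_eq, show 6 * m = 2 * (3 * m) by ring] at hab
    have hlen : u.length + v.length + 2 = 2 * (3 * m) := by
      rcases alt_equivalent hab with h | h
      · have := congrArg List.length h
        rw [alt_length] at this
        simp only [List.length_cons, List.length_append] at this
        omega
      · have := congrArg List.length h
        rw [alt_length] at this
        simp only [List.length_cons, List.length_append] at this
        omega
    -- the inner block is alternating
    have hblock : u = alt (2 : ZMod (5 * m)) ((m : ZMod (5 * m)) + 2) u.length ∨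
        u = alt ((m : ZMod (5 * m)) + 2) (2 : ZMod (5 * m)) u.length := by
      rcases alt_equivalent hab with h | h
      · right
        rw [show 2 * (3 * m) = (2 * (3 * m) - 1) + 1 by omega, alt, List.cons.injEq] at h
        exact alt_prefix_eq h.2.symm
      · left
        rw [show 2 * (3 * m) = (2 * (3 * m) - 1) + 1 by omega, alt, List.cons.injEq] at h
        exact alt_prefix_eq h.2.symm
    have hcor := corner ha
    -- the two residues of the corner entry
    have c5 : f5 (M u 0 0) = M (alt (2 : ZMod 5) 3 u.length) 0 0 ∨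
        f5 (M u 0 0) = M (alt (3 : ZMod 5) 2 u.length) 0 0 := by
      rcases hblock with h | h
      · left; rw [← m5, ← h]
      · right; rw [← m5', ← h]
    have c1 : f1 (M u 0 0) = (u.length : ZMod m) + 1 := by
      have h2 : M (alt (2 : ZMod m) 2 u.length) 0 0 = (u.length : ZMod m) + 1 := by
        rw [M_two]; rfl
      rcases hblock with h | h
      · rw [← h2, ← m1, ← h]
      · rw [← h2, ← m1', ← h]
    rcases hcor with h | h
    · rw [h, map_one] at c5 c1
      have d6 : u.length % 6 = 0 := by
        apply corner_plus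
        rcases c5 with c | c
        · exact Or.inl c.symm
        · exact Or.inr c.symm
      have dm : m ∣ u.length := by
        rw [← ZMod.natCast_eq_zero_iff]
        have : (u.length : ZMod m) + 1 = 0 + 1 := by rw [← c1, zero_add]
        exact add_right_cancel this
      have d : 6 * m ∣ u.length := hc6.mul_dvd_of_dvd_of_dvd (Nat.dvd_of_mod_eq_zero d6) dm
      have := Nat.le_of_dvd (by omega) d
      omega
    · rw [h, map_neg, map_one] at c5 c1
      have d6 : u.length % 6 = 4 := by
        apply corner_minus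
        rcases c5 with c | c
        · exact Or.inl c.symm
        · exact Or.inr c.symm
      have dm : m ∣ u.length + 2 := by
        rw [← ZMod.natCast_eq_zero_iff]
        push_cast
        linear_combination -c1
      have d : 6 * m ∣ u.length + 2 := hc6.mul_dvd_of_dvd_of_dvd (by omega) dm
      have := Nat.le_of_dvd (by omega) d
      omega

/-- **Q1 is false.** For every `m ≡ 1 (mod 30)` the equation `(E_{5m})` has an irreducible solution of
size `6 m`; so for every `K` there are `N ≥ 2` and an irreducible solution of `(E_N)` of size at least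
`N + K`, and there is no `K` such that every irreducible solution of every `(E_N)` has size less than
`N + K`. -/
theorem result :
    (∀ m : ℕ, m % 30 = 1 →
      IsIrreducible (alt (2 : ZMod (5 * m)) ((m : ZMod (5 * m)) + 2) (6 * m)) ∧
      (alt (2 : ZMod (5 * m)) ((m : ZMod (5 * m)) + 2) (6 * m)).length = 6 * m) ∧
    (∀ K : ℕ, ∃ N : ℕ, 2 ≤ N ∧ ∃ c : List (ZMod N), IsIrreducible c ∧ N + K ≤ c.length) ∧
    ¬ ∃ K : ℕ, 0 < K ∧ ∀ N : ℕ, 2 ≤ N → ∀ c : List (ZMod N), IsIrreducible c →
      c.length < N + K := by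
  have h1 : ∀ K : ℕ, ∃ N : ℕ, 2 ≤ N ∧ ∃ c : List (ZMod N), IsIrreducible c ∧ N + K ≤ c.length := by
    intro K
    refine ⟨5 * (30 * K + 1), by omega, _, family (m := 30 * K + 1) (by omega), ?_⟩
    rw [alt_length]
    omega
  refine ⟨fun m hm => ⟨family hm, alt_length _ _ _⟩, h1, ?_⟩
  rintro ⟨K, -, h⟩
  obtain ⟨N, hN, c, hc, hl⟩ := h1 K
  exact absurd (h N hN c hc) (by omega)

end Pool.Agent.Results.MP_8835a9_co.NoUniformBound
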